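import Pool.Agent.Q235.FA.Lower
import Pool.Agent.Q235.FA.Upper

set_option autoImplicit false

/-!
# Fermi-Amaldi TFW theory: the extra electron is not bound for `z = 1`

The definitions are in `Pool/Agent/Q235/FA/Defs.lean`: `Density ρ g` says that `ρ ≥ 0` is in
`L¹ ∩ L^{5/3}` and `g ∈ L²` is the distributional gradient of `ρ^{1/2}`; `energy z N ρ g` is the
Fermi-Amaldi functional with `A = 0.1859`, `γ = (3π²)^{2/3}`; `values z N` is the set of its values
on densities of mass `N` and `E z N` is the infimum of this set.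
-/

namespace Pool.Agent.Results.MP_8f8f86_mp.ExtraElectronNotBound

open Pool.Agent.Q235.FA

lemma bdd (z N : ℕ) : BddBelow (values z N) := by
  refine ⟨-((z:ℝ) ^ 2 / (4 * 0.1859)) * N, ?_⟩
  rintro e ⟨ρ, g, h, hm, rfl⟩
  have := energy_ge h z N
  rwa [hm] at this

/-- For all `z` and `N` the energies `E z N` are infima of nonempty sets that are bounded below;
`E(1) ≤ -0.327` and `E(2) ≥ -0.3173` for `z = 1`; hence it is not true that `E(z+1) < E(z)` for
every integer `z ≥ 1`. -/
theorem result :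
    (∀ z N : ℕ, (values z N).Nonempty ∧ BddBelow (values z N)) ∧
    E 1 1 ≤ -0.327 ∧ -0.3173 ≤ E 1 2 ∧
    ¬ ∀ z : ℕ, 1 ≤ z → E z (z + 1) < E z z := by
  have h1 : E 1 1 ≤ -0.327 := by
    refine (csInf_le (bdd 1 1) ⟨tr (13/20) 1, tg (13/20) 1, tr_density (by norm_num) zero_le_one, ?_, rfl⟩).trans
      upper_one
    rw [tr_mass (by norm_num)]; norm_num
  have h2 : -0.3173 ≤ E 1 2 := by
    refine le_csInf (values_nonempty 1 2) ?_
    rintro e ⟨ρ, g, h, -, rfl⟩
    exact lower_two h
  refine ⟨fun z N => ⟨values_nonempty z N, bdd z N⟩, h1, h2, fun h => ?_⟩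
  have h3 := h 1 le_rfl
  norm_num at h3
  linarith

end Pool.Agent.Results.MP_8f8f86_mp.ExtraElectronNotBound
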